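import Pool.Agent.H27.L1.H68.GHY.Targets
import Pool.Agent.H27.L1.H55.GB.TBS

/-!
Row TBS of the board ghy.
-/

set_option autoImplicit false

namespace Pool.Agent.H27.L1.H55.GHY

theorem pf_TBS : Pool.Agent.H27.L1.H68.GHY.T_TBS := Pool.Agent.H27.L1.H55.GB.pf_TBS

end Pool.Agent.H27.L1.H55.GHY
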