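import Pool.Agent.H27.L1.H68.GHY.Targets
import Pool.Agent.H27.L1.H34.GM.BES

/-!
Row HSD of the board ghy: Bessel's inequality for the kernel at a fixed point, integrated over a subset
of the fundamental domain.
-/

set_option autoImplicit false

namespace Pool.Agent.H27.L1.H55.GHY

open MeasureTheory Pool.Agent.H27.L1.H34.GM Pool.Agent.H27.L1.H34.GZ Pool.Agent.H27.L1.H34.GU Pool.Agent.H27.L1.H34.GA
  Pool.Agent.H27.L1.H68.GHY

section abs

variable {A R : Type} [MeasurableSpace A] [Fintype R] [MeasurableSpace R]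
  [MeasurableSingletonClass R]

theorem hsd_lint (μ : Measure A) [SFinite μ] (G : A × R → ENNReal) (hG : Measurable G) :
    ∫⁻ p, G p ∂(μ.prod (Measure.count : Measure R)) = ∫⁻ g, ∑ x, G (g, x) ∂μ := by
  rw [lintegral_prod _ hG.aemeasurable]
  refine lintegral_congr (fun g => ?_)
  rw [lintegral_count, tsum_fintype]

theorem hsd_meas {β : Type} [MeasurableSpace β] (K : A → R → β)
    (hK : ∀ w, Measurable (fun p : A => K p w)) :
    Measurable (fun q : A × R => K q.1 q.2) :=
  measurable_from_prod_countable_left (fun y => hK y)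

/-- the lower integral is superadditive -/
theorem hsd_sum {ι : Type} (μ : Measure A) (s : Finset ι) (f : ι → A → ENNReal) :
    ∑ i ∈ s, ∫⁻ x, f i x ∂μ ≤ ∫⁻ x, ∑ i ∈ s, f i x ∂μ := by
  classical
  induction s using Finset.induction_on with
  | empty => simp
  | insert i s hi ih =>
    rw [Finset.sum_insert hi]
    refine (add_le_add le_rfl ih).trans ((le_lintegral_add _ _).trans (le_of_eq ?_))
    refine lintegral_congr fun x => ?_
    rw [Finset.sum_insert hi]

end abs

theorem hsd_det {m : ℕ} (hm1 : 1 ≤ m) {z : V m} (hz : 1 ≤ aN (mt z)) : (mt z).det ≠ 0 := by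
  intro h
  unfold aN at hz
  rw [h, abs_zero, Real.zero_rpow] at hz
  · linarith
  · have : (0 : ℝ) < m := by exact_mod_cast hm1
    positivity

theorem pf_HSD : T_BIA → T_KCD → T_KMD → T_OCD → Pool.Agent.H27.L1.H68.GHY.T_HSD := by
  intro hBIA hKCD hKMD hOCD m N _ T D hSys ι _ _ F lam hF hOrth χ hχ y a d x0 hy ha hd hd2 hx0
    S hSD hS
  classical
  have hm1 := hSys.one_le
  obtain ⟨CB, hCB1, hCB⟩ := hBIA m χ hm1 hχ
  have hΦ : Tg m (bi m χ d) := (hCB d hd hd2).1.toTg
  have hC1 := (hKCD m N χ hm1 hSys.two_le hχ y a d x0 hy ha hd hd2 hx0).1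
  have hDm := hSys.dom.meas
  have hDdet : ∀ z ∈ D, (mt z).det ≠ 0 := fun z hz => hsd_det hm1 (hSys.dom.shell z hz).1
  have hsf : SFinite (hm m) := by unfold hm; infer_instance
  let _ms : MeasurableSpace (VN m N) := ⊤
  have _hs : MeasurableSingletonClass (VN m N) := ⟨fun _ => trivial⟩
  obtain ⟨μ, hμ⟩ : ∃ μ : Measure (V m), μ = (hm m).restrict D := ⟨_, rfl⟩
  have hsfμ : SFinite μ := by rw [hμ]; infer_instance
  have hsfn : SFinite (μ.prod (Measure.count : Measure (VN m N))) := by infer_instance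
  have hcmt : Continuous (fun z : V m => mt z) := continuous_id
  -- the restriction of a function to the domain
  obtain ⟨R, hRdef⟩ : ∃ R : (Mat m → VN m N → ℂ) → V m × VN m N → ℂ, ∀ H z x, R H (z, x) =
      D.piecewise (fun z => H (mt z) x) (fun _ => 0) z := by
    exact ⟨fun H p => D.piecewise (fun z => H (mt z) p.2) (fun _ => 0) p.1, fun _ _ _ => rfl⟩
  have hRD : ∀ H, ∀ z ∈ D, ∀ x : VN m N, R H (z, x) = H (mt z) x := by
    intro H z hz x
    rw [hRdef, Set.piecewise_eq_of_mem _ _ _ hz]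
  have hRm : ∀ (H : Mat m → VN m N → ℂ) (l : ℕ → ℂ), HecA m N T H l → Measurable (R H) := by
    intro H l hH
    refine measurable_from_prod_countable_left (fun x => ?_)
    have h1 : Measurable (D.piecewise (fun z => H (mt z) x) (fun _ => (0 : ℂ))) := by
      refine ContinuousOn.measurable_piecewise ?_ continuousOn_const hDm
      exact (hH.cont x).comp hcmt.continuousOn (fun z hz => hDdet z hz)
    have h2 : (fun z => R H (z, x)) =
        D.piecewise (fun z => H (mt z) x) (fun _ => (0 : ℂ)) := by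
      funext z
      rw [hRdef]
    rw [h2]
    exact h1
  -- integrability and orthonormality
  have hint : ∀ i j, Integrable (fun p => R (F i) p * (starRingEnd ℂ) (R (F j) p))
      (μ.prod (Measure.count : Measure (VN m N))) := by
    intro i j
    have hmeas : Measurable (fun p => R (F i) p * (starRingEnd ℂ) (R (F j) p)) :=
      (hRm _ _ (hF i)).mul (Complex.continuous_conj.measurable.comp (hRm _ _ (hF j)))
    rw [integrable_prod_iff' hmeas.aestronglyMeasurable]
    refine ⟨Filter.Eventually.of_forall (fun x => ?_), Integrable.of_finite⟩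
    rw [hμ]
    refine (hOrth.1 i j x).congr_fun (fun z hz => ?_) hDm
    show F i (mt z) x * (starRingEnd ℂ) (F j (mt z) x) = _
    rw [hRD (F i) z hz x, hRD (F j) z hz x]
  have horth : ∀ i j, ∫ p, R (F i) p * (starRingEnd ℂ) (R (F j) p)
      ∂(μ.prod (Measure.count : Measure (VN m N))) = if i = j then 1 else 0 := by
    intro i j
    rw [← hOrth.2 i j, integral_prod_symm _ (hint i j), integral_count]
    refine Finset.sum_congr rfl (fun x _ => ?_)
    rw [hμ]
    refine setIntegral_congr_fun hDm (fun z hz => ?_)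
    show R (F i) (z, x) * (starRingEnd ℂ) (R (F j) (z, x)) = _
    rw [hRD (F i) z hz x, hRD (F j) z hz x]
  have hfp : ∀ i, MemLp (R (F i)) 2 (μ.prod (Measure.count : Measure (VN m N))) :=
    fun i => bes_memLp (hRm _ _ (hF i)) (hint i i)
  -- the kernels
  obtain ⟨KC, hKC⟩ : ∃ KC : V m → VN m N → V m → VN m N → ℂ, ∀ g x h w, KC g x h w =
      Kc (bi m χ d) a d x0 (mt g) x (mt h) w := ⟨_, fun _ _ _ _ => rfl⟩
  obtain ⟨KD, hKD⟩ : ∃ KD : V m → VN m N → V m → VN m N → ENNReal, ∀ g x h w, KD g x h w =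
      Kd d y x0 (mt g) x (mt h) w := ⟨_, fun _ _ _ _ => rfl⟩
  have hKCm : ∀ x w, Measurable (fun p : V m × V m => KC p.1 x p.2 w) := by
    intro x w
    have h1 := (hKMD m N d y x w hm1).2 _ hΦ a x0
    have h2 : (fun p : V m × V m => KC p.1 x p.2 w) = fun p : V m × V m =>
        Kc (bi m χ d) a d x0 (mt p.1) x (mt p.2) w := funext fun p => hKC _ _ _ _
    rw [h2]
    exact h1
  have hKDm : ∀ x w, Measurable (fun p : V m × V m => KD p.1 x p.2 w) := by
    intro x w
    have h1 := (hKMD m N d y x w hm1).1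
    have h2 : Measurable (fun p : V m × V m => ((x0, p) : ℝ × V m × V m)) := by
      fun_prop
    have h3 := h1.comp h2
    have h4 : (fun p : V m × V m => KD p.1 x p.2 w) =
        (fun p : ℝ × V m × V m => Kd d y p.1 (mt p.2.1) x (mt p.2.2) w) ∘
        (fun p : V m × V m => ((x0, p) : ℝ × V m × V m)) := funext fun p => hKD _ _ _ _
    rw [h4]
    exact h3
  have hC1' : ∀ g x h w, ENNReal.ofReal ‖KC g x h w‖ ≤ KD g x h w := by
    intro g x h w
    rw [hKC, hKD]
    exact hC1 _ _ _ _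
  have hop0 : ∀ i, ∀ g ∈ D, ∀ x : VN m N, ∫ z in D, ∑ w : VN m N, KC g x z w * F i (mt z) w
      ∂(hm m) = Bs m (lam i) a y d x0 * Rr (bi m χ d) 1 (F i) (mt g) x := by
    intro i g hg x
    rw [← hOCD m N T D hSys (F i) (lam i) (hF i) χ hχ y a d x0 hy ha hd hd2
        hx0 (mt g) x (hDdet g hg)]
    refine setIntegral_congr_fun hDm (fun z hz => ?_)
    refine Finset.sum_congr rfl (fun w _ => ?_)
    rw [hKC]
  have hEd : ∀ g : V m, Ed N D d y x0 (mt g) =
      ∑ x : VN m N, ∫⁻ h in D, ∑ w : VN m N, (KD g x h w) ^ 2 ∂(hm m) := by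
    intro g
    unfold Ed
    refine Finset.sum_congr rfl (fun x _ => ?_)
    refine lintegral_congr (fun h => Finset.sum_congr rfl (fun w _ => ?_))
    rw [hKD]
  -- the pointwise inequality
  have hpt : ∀ g ∈ D, ∀ x : VN m N,
      ∑ i, ENNReal.ofReal (‖Bs m (lam i) a y d x0‖ ^ 2) *
        ENNReal.ofReal (‖Rr (bi m χ d) 1 (F i) (mt g) x‖ ^ 2) ≤
      ∫⁻ h in D, ∑ w : VN m N, (KD g x h w) ^ 2 ∂(hm m) := by
    intro g hg x
    obtain ⟨H, hH⟩ : ∃ H : V m × VN m N → ℂ, ∀ p, H p = KC g x p.1 p.2 :=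
      ⟨_, fun _ => rfl⟩
    have hHm : Measurable H := by
      refine measurable_from_prod_countable_left (fun w => ?_)
      have h1 : (fun z : V m => H (z, w)) = fun z => KC g x z w := funext fun z => hH _
      rw [h1]
      exact (hKCm x w).comp (measurable_prodMk_left : Measurable (Prod.mk g))
    obtain ⟨Q, hQ⟩ : ∃ Q : V m × VN m N → ENNReal, ∀ p, Q p = (KD g x p.1 p.2) ^ 2 :=
      ⟨_, fun _ => rfl⟩
    have hQm : Measurable Q := by
      refine measurable_from_prod_countable_left (fun w => ?_)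
      have h1 : (fun z : V m => Q (z, w)) = fun z => (KD g x z w) ^ 2 := funext fun z => hQ _
      rw [h1]
      exact ((hKDm x w).comp (measurable_prodMk_left : Measurable (Prod.mk g))).pow_const 2
    have e1 : ∫⁻ p, Q p ∂(μ.prod (Measure.count : Measure (VN m N))) =
        ∫⁻ h in D, ∑ w : VN m N, (KD g x h w) ^ 2 ∂(hm m) := by
      rw [hsd_lint μ _ hQm, hμ]
      exact lintegral_congr (fun h => Finset.sum_congr rfl (fun w _ => hQ _))
    have hle : ∫⁻ p, ENNReal.ofReal (‖H p‖ ^ 2) ∂(μ.prod (Measure.count : Measure (VN m N))) ≤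
        ∫⁻ h in D, ∑ w : VN m N, (KD g x h w) ^ 2 ∂(hm m) := by
      rw [← e1]
      refine lintegral_mono fun p => ?_
      rw [ENNReal.ofReal_pow (norm_nonneg _), hH, hQ]
      exact pow_le_pow_left' (hC1' _ _ _ _) 2
    by_cases htop : ∫⁻ h in D, ∑ w : VN m N, (KD g x h w) ^ 2 ∂(hm m) = ⊤
    · rw [htop]
      exact le_top
    have hHp : MemLp H 2 (μ.prod (Measure.count : Measure (VN m N))) := by
      rw [memLp_two_iff_integrable_sq_norm hHm.aestronglyMeasurable]
      refine ⟨(hHm.norm.pow_const 2).aestronglyMeasurable, ?_⟩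
      refine lt_of_le_of_lt ?_ (lt_of_le_of_lt hle (lt_top_iff_ne_top.2 htop))
      refine lintegral_mono fun z => ?_
      rw [← ofReal_norm, Real.norm_of_nonneg (by positivity)]
    have hop : ∀ i, ∫ p, H p * R (F i) p ∂(μ.prod (Measure.count : Measure (VN m N))) =
        Bs m (lam i) a y d x0 * Rr (bi m χ d) 1 (F i) (mt g) x := by
      intro i
      have hI : Integrable (fun p => H p * R (F i) p)
          (μ.prod (Measure.count : Measure (VN m N))) := hHp.integrable_mul (hfp i)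
      rw [integral_prod _ hI, ← hop0 i g hg x, hμ]
      refine setIntegral_congr_fun hDm (fun z hz => ?_)
      show ∫ w, H (z, w) * R (F i) (z, w) ∂(Measure.count : Measure (VN m N)) = _
      rw [integral_count]
      refine Finset.sum_congr rfl (fun w _ => ?_)
      rw [hRD (F i) z hz w, hH]
    refine le_trans (le_of_eq ?_) ((bes_bessel hfp horth hHp).trans hle)
    refine Finset.sum_congr rfl (fun i _ => ?_)
    rw [hop i, norm_mul, mul_pow, ENNReal.ofReal_mul (by positivity)]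
  -- integration
  calc ∑ i, ENNReal.ofReal (‖Bs m (lam i) a y d x0‖ ^ 2) *
      ∑ x, ∫⁻ g in S, ENNReal.ofReal (‖Rr (bi m χ d) 1 (F i) (mt g) x‖ ^ 2) ∂(hm m)
      ≤ ∑ i, ∑ x, ∫⁻ g in S, ENNReal.ofReal (‖Bs m (lam i) a y d x0‖ ^ 2) *
        ENNReal.ofReal (‖Rr (bi m χ d) 1 (F i) (mt g) x‖ ^ 2) ∂(hm m) := by
        refine Finset.sum_le_sum fun i _ => ?_
        rw [Finset.mul_sum]
        exact Finset.sum_le_sum fun x _ => lintegral_const_mul_le _ _
    _ = ∑ x, ∑ i, ∫⁻ g in S, ENNReal.ofReal (‖Bs m (lam i) a y d x0‖ ^ 2) *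
        ENNReal.ofReal (‖Rr (bi m χ d) 1 (F i) (mt g) x‖ ^ 2) ∂(hm m) := Finset.sum_comm
    _ ≤ ∑ x, ∫⁻ g in S, ∑ i, ENNReal.ofReal (‖Bs m (lam i) a y d x0‖ ^ 2) *
        ENNReal.ofReal (‖Rr (bi m χ d) 1 (F i) (mt g) x‖ ^ 2) ∂(hm m) :=
        Finset.sum_le_sum fun x _ => hsd_sum _ _ _
    _ ≤ ∫⁻ g in S, ∑ x, ∑ i, ENNReal.ofReal (‖Bs m (lam i) a y d x0‖ ^ 2) *
        ENNReal.ofReal (‖Rr (bi m χ d) 1 (F i) (mt g) x‖ ^ 2) ∂(hm m) := hsd_sum _ _ _
    _ ≤ ∫⁻ g in S, Ed N D d y x0 (mt g) ∂(hm m) := by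
        refine setLIntegral_mono' hS fun g hg => ?_
        rw [hEd]
        exact Finset.sum_le_sum fun x _ => hpt g (hSD hg) x

end Pool.Agent.H27.L1.H55.GHY
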